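import Pool.Agent.H45.SF.GT

/-! GL: the limit of Boolean valued maps along a limit of algebras. -/

open Ordinal Cardinal Order Set
open scoped ZFSet

namespace SF.H47

open SF

theorem gl (hBR : T_BR) : T_GL := by
  classical
  intro A f Z k hcomm N' N b c σ e he hM hc hrel
  have hn : ∀ n, BMap N' N c (fun x y => k n (σ n x y) ⊓ c) := fun n =>
    hBR (A n).B Z.B N' N (b n) (σ n) (k n).toMor (hM n) c (hc n)
  have key : ∀ i n, i ≤ n → ∀ y, k n (σ n (e i) y) ⊓ c = k i (σ i (e i) y) ⊓ c := by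
    intro i n hin
    induction n, hin using Nat.le_induction with
    | base => intro y; rfl
    | succ m him ih =>
      intro y
      rw [hrel m i him y, ← ih y, (k (m + 1)).inf]
      have h1 : (k (m + 1)).f (f m (σ m (e i) y)) = (k m).f (σ m (e i) y) := hcomm m _
      rw [h1, inf_assoc, inf_eq_right.2 (hc (m + 1))]
  set idx : V → ℕ := fun x => if h : ∃ i, e i = x then Nat.find h else 0 with hidx
  have hidx1 : ∀ x, (∃ i, e i = x) → e (idx x) = x := by
    intro x h
    simp only [hidx]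
    rw [dif_pos h]
    exact Nat.find_spec h
  have hidx2 : ∀ i, idx (e i) ≤ i := by
    intro i
    have h : ∃ j, e j = e i := ⟨i, rfl⟩
    simp only [hidx]
    rw [dif_pos h]
    exact Nat.find_min' h rfl
  have key2 : ∀ n x, (∃ i, e i = x) → idx x ≤ n → ∀ y,
      k (idx x) (σ (idx x) x y) ⊓ c = k n (σ n x y) ⊓ c := by
    intro n x hx hle y
    have h1 := key (idx x) n hle y
    rw [hidx1 x hx] at h1
    exact h1.symm
  refine ⟨fun x y => k (idx x) (σ (idx x) x y) ⊓ c, ⟨?_, ?_, ?_, ?_⟩, ?_⟩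
  · intro x hx
    exact (hn (idx x)).tot x hx
  · intro x y y' hyy
    exact (hn (idx x)).fn x y y' hyy
  · intro x y hxy
    exact (hn (idx x)).dom x y hxy
  · intro s hs v hv φ
    have hs1 : ∀ q ∈ s, k (idx q.1) (σ (idx q.1) q.1 q.2) ⊓ c ≠ ⊥ := fun q hq h =>
      hs (le_bot_iff.1 (h ▸ Finset.inf_le
        (f := fun q : V × V => k (idx q.1) (σ (idx q.1) q.1 q.2) ⊓ c) hq))
    refine (hn (s.sup fun q => idx q.1)).el s ?_ v hv φ
    have h1 : (s.inf fun q => k (s.sup fun q => idx q.1) (σ (s.sup fun q => idx q.1) q.1 q.2) ⊓ c)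
        = s.inf fun q => k (idx q.1) (σ (idx q.1) q.1 q.2) ⊓ c := by
      refine Finset.inf_congr rfl fun q hq => ?_
      exact (key2 _ q.1 (he _ ((hn (idx q.1)).dom q.1 q.2 (hs1 q hq)).1)
        (Finset.le_sup (f := fun q : V × V => idx q.1) hq) q.2).symm
    rw [h1]
    exact hs
  · intro n i hin y
    exact key2 n (e i) ⟨i, rfl⟩ ((hidx2 i).trans hin) y

end SF.H47
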