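import Pool.Agent.H45.SF.GT

/-! TF: transfer of definable functions along a map with values in an algebra. -/

open Ordinal Cardinal Order Set
open scoped ZFSet

namespace SF.H47

open SF

theorem tf (hZN : T_ZN) (hTR : T_TR) : T_TF := by
  classical
  intro f hf B _ N' N b σ hN hσ s hs v hv
  obtain ⟨hf1, hf2⟩ := hf
  have leb : ∀ x y, σ x y ≤ b := by
    intro x y
    by_cases h : σ x y = ⊥
    · rw [h]; exact bot_le
    · rw [← hσ.tot x (hσ.dom x y h).1]
      exact le_iSup (fun y => σ x y) y
  have hs1 : ∀ q ∈ s, σ q.1 q.2 ≠ ⊥ := fun q hq h =>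
    hs (le_bot_iff.1 (h ▸ Finset.inf_le (f := fun q : V × V => σ q.1 q.2) hq))
  have hsb : (s.inf fun q => σ q.1 q.2) ≤ b :=
    (Finset.inf_le (f := fun q : V × V => σ q.1 q.2) (hv 0)).trans (leb _ _)
  have hb : b ≠ ⊥ := by
    intro h
    exact hs (le_bot_iff.1 (h ▸ hsb))
  have hN' := hZN B N' N b σ hN hσ hb
  have hx : f (· ∈ N') (fun i => (v i).1) ∈ N' :=
    hf1 _ hN'.toZFm _ fun i => (hσ.dom _ _ (hs1 _ (hv i))).1
  refine ⟨hx, ?_⟩
  set x : V := f (· ∈ N') (fun i => (v i).1) with hxdef
  set y : V := f (· ∈ N) (fun i => (v i).2) with hydef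
  set S : El B := s.inf fun q => σ q.1 q.2 with hSdef
  have h1 : S = ⨆ z, S ⊓ σ x z := by
    rw [← inf_iSup_eq, hσ.tot x hx]
    exact (inf_eq_left.2 hsb).symm
  rw [h1]
  refine iSup_le fun z => ?_
  by_cases hz : z = y
  · rw [hz]; exact inf_le_right
  · by_cases h2 : S ⊓ σ x z = ⊥
    · rw [h2]; exact bot_le
    · exfalso
      apply hz
      have h3 := hTR _ hf2 B N' N b σ hN hσ (insert (x, z) s)
        (by
          rw [Finset.inf_insert, inf_comm]
          exact h2)
        (fun i => match i with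
          | 0 => (x, z)
          | n + 1 => v n)
        (by
          intro i
          cases i with
          | zero => exact Finset.mem_insert_self _ _
          | succ n => exact Finset.mem_insert_of_mem (hv n))
      exact h3.1 rfl

end SF.H47
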