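import Pool.Agent.H45.SF.GT

/-! G6: goodness is local. -/

open Ordinal Cardinal Order Set
open scoped ZFSet

namespace SF.H47

open SF

theorem bmor_ext {A C : BA} (h k : BMor A C) (hf : h.f = k.f) : h = k := by
  obtain ⟨⟨f, i1, s1⟩, b1⟩ := h
  obtain ⟨⟨g, i2, s2⟩, b2⟩ := k
  have : f = g := hf
  subst this
  rfl

theorem good_res (hG1 : T_G1) (hG2 : T_G2) {A C : BA} (h : BMor A C) (hh : Good h)
    (c : El C.B) : Good (h.res c) := by
  have h1 : Good ((BMor.id C).res c) := by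
    refine hG2 C C _ fun c' hc' => ⟨c', ?_⟩
    have h2 : c' ≤ ⊤ ⊓ c := hc'
    show c' ⊓ c = c'
    exact inf_eq_left.2 (h2.trans inf_le_right)
  have h3 := hG1 A C C h ((BMor.id C).res c) hh h1
  exact h3

theorem g6 (hMB : T_MB) (hG1 : T_G1) (hG2 : T_G2) (hG3 : T_G3) : T_G6 := by
  classical
  intro A C h S hS
  obtain ⟨hmono, hbot, -⟩ := hMB A.B C.B h.toMor
  set r : El A.B → El A.B → Prop := WellOrderingRel with hr
  set d : El A.B → El A.B := fun s => s \ sSup {t | t ∈ S ∧ r t s} with hd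
  have hds : ∀ s, d s ≤ s := fun s => sdiff_le
  have hdis : ∀ s ∈ S, ∀ t, r s t → d s ⊓ d t = ⊥ := by
    intro s hs t hst
    have h1 : d s ≤ sSup {u | u ∈ S ∧ r u t} := (hds s).trans (le_sSup ⟨hs, hst⟩)
    have h2 : Disjoint (d t) (sSup {u | u ∈ S ∧ r u t}) := disjoint_sdiff_self_left
    exact (h2.symm.mono_left h1).eq_bot
  have hsup : sSup (d '' S) = sSup S := by
    apply le_antisymm
    · refine sSup_le ?_
      rintro _ ⟨s, hs, rfl⟩
      exact (hds s).trans (le_sSup hs)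
    · refine sSup_le fun s => ?_
      induction s using (WellOrderingRel.isWellOrder (α := El A.B)).wf.induction with
      | _ s ih =>
        intro hs
        have h1 : s ≤ d s ⊔ sSup {t | t ∈ S ∧ r t s} := by
          simp only [hd]
          rw [sdiff_sup_self]
          exact le_sup_left
        refine h1.trans (sup_le (le_sSup ⟨s, hs, rfl⟩) (sSup_le ?_))
        rintro t ⟨htS, hts⟩
        exact ih t hts htS
  refine hG3 A C (h.res (h (sSup S))) (h '' (d '' S)) ?_ ?_ ?_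
  · rw [← h.sup, hsup]
    show h (sSup S) = h ⊤ ⊓ h (sSup S)
    exact (inf_eq_right.2 (hmono _ _ le_top)).symm
  · rintro _ ⟨_, ⟨s, hs, rfl⟩, rfl⟩ _ ⟨_, ⟨t, ht, rfl⟩, rfl⟩ hst
    have h1 : s ≠ t := fun h => hst (by rw [h])
    show h (d s) ⊓ h (d t) = ⊥
    rw [← h.inf]
    by_cases h2 : r s t
    · rw [hdis s hs t h2]; exact hbot
    · by_cases h3 : r t s
      · rw [inf_comm, hdis t ht s h3]; exact hbot
      · exact absurd ((WellOrderingRel.isWellOrder (α := El A.B)).trichotomous s t h2 h3) h1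
  · rintro _ ⟨_, ⟨s, hs, rfl⟩, rfl⟩
    have h1 : h (d s) ≤ h s := hmono _ _ (hds s)
    have h2 : h (d s) ≤ h (sSup S) := hmono _ _ ((hds s).trans (le_sSup hs))
    have h3 : (h.res (h (sSup S))).res (h (d s)) = (h.res (h s)).res (h (d s)) := by
      apply bmor_ext
      funext x
      show (h x ⊓ h (sSup S)) ⊓ h (d s) = (h x ⊓ h s) ⊓ h (d s)
      rw [inf_assoc, inf_eq_right.2 h2, inf_assoc, inf_eq_right.2 h1]
    rw [h3]
    exact good_res hG1 hG2 _ (hS s hs) _

end SF.H47
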